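import Pool.Agent.R88.RR.Asm4

/-!
# Real reliability roots of almost all graphs (MP_ccdac2_co)

It is not true that almost every graph has a real reliability root different from `q = 1`:
for all large `n` a positive proportion (bounded below) of the labelled graphs on `n` vertices has
no real root of `Rel(G;q)` other than `q = 1`.
-/

set_option autoImplicit false

namespace Pool.Agent.Results.MP_ccdac2_co.NotAlmostAll

open Filter Topology
open scoped Classical

/-- The all-terminal reliability polynomial of a graph `G` on `V`, evaluated at the edge failure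
probability `q`: the sum of `(1-q)^|A| q^(m-|A|)` over all edge sets `A ⊆ E(G)` such that the graph
`(V, A)` is connected, where `m = |E(G)|`. -/
noncomputable def rel {V : Type} [Fintype V] (G : SimpleGraph V) (q : ℝ) : ℝ :=
  ∑ A ∈ (Finset.univ : Finset (Finset (Sym2 V))).filter (fun A : Finset (Sym2 V) =>
      (A : Set (Sym2 V)) ⊆ G.edgeSet ∧
        (SimpleGraph.fromEdgeSet (A : Set (Sym2 V))).Connected),
    (1 - q) ^ A.card * q ^ (G.edgeSet.ncard - A.card)

/-- `G` has a real reliability root different from `q = 1`. -/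
def HasRoot {V : Type} [Fintype V] (G : SimpleGraph V) : Prop := ∃ q : ℝ, q ≠ 1 ∧ rel G q = 0

/-- The proportion of the labelled graphs on `n` vertices with a real reliability root
different from `q = 1`. -/
noncomputable def prop (n : ℕ) : ℝ :=
  (Nat.card {G : SimpleGraph (Fin n) // HasRoot G} : ℝ) / (Nat.card (SimpleGraph (Fin n)) : ℝ)

open Pool.Agent.R88.RR in
theorem rel_fromEdgeSet {V : Type} [Fintype V] (A : Finset (Sym2 V)) (hA : A ⊆ EE V) (q : ℝ) :
    rel (SimpleGraph.fromEdgeSet (A : Set (Sym2 V))) q = Pool.Agent.R88.RR.Rel A q := by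
  have h1 : (SimpleGraph.fromEdgeSet (A : Set (Sym2 V))).edgeSet = (A : Set (Sym2 V)) := by
    rw [SimpleGraph.edgeSet_fromEdgeSet]
    ext e
    simp only [Set.mem_diff, Finset.mem_coe, Set.mem_setOf_eq]
    constructor
    · exact fun h => h.1
    · intro h
      exact ⟨h, (mem_EE e).1 (hA h)⟩
  unfold rel Pool.Agent.R88.RR.Rel
  rw [h1, Set.ncard_coe_finset]
  apply Finset.sum_congr _ (fun _ _ => rfl)
  ext F
  simp only [Finset.mem_filter, Finset.mem_univ, true_and, Finset.mem_powerset, Finset.coe_subset]

open Pool.Agent.R88.RR in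
theorem main_bound : ∃ p : ℝ, 0 < p ∧ ∃ n0 : ℕ, ∀ (V : Type) [Fintype V],
    n0 ≤ Fintype.card V →
    (Nat.card {G : SimpleGraph V // HasRoot G} : ℝ) ≤ (1 - p) * (Nat.card (SimpleGraph V) : ℝ) := by
  obtain ⟨p, hp, n0, h⟩ := count_main
  refine ⟨p, hp, max n0 1, ?_⟩
  intro V _ hV
  rw [max_le_iff] at hV
  haveI : Nonempty V := by
    rw [← Fintype.card_pos_iff]; omega
  have hc := h V hV.1
  haveI : Fintype (SimpleGraph V) := Fintype.ofFinite _
  -- all graphs
  have hall : Nat.card (SimpleGraph V) = 2 ^ (EE V).card := by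
    rw [Nat.card_eq_fintype_card, ← Finset.card_univ, ← Finset.card_powerset]
    symm
    apply Finset.card_bij (fun (A : Finset (Sym2 V)) _ =>
      SimpleGraph.fromEdgeSet (A : Set (Sym2 V)))
    · intro A _; exact Finset.mem_univ _
    · intro A hA B hB hAB
      rw [Finset.mem_powerset] at hA hB
      have hE : ∀ C : Finset (Sym2 V), C ⊆ EE V →
          (SimpleGraph.fromEdgeSet (C : Set (Sym2 V))).edgeSet = (C : Set (Sym2 V)) := by
        intro C hC
        rw [SimpleGraph.edgeSet_fromEdgeSet]
        ext e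
        simp only [Set.mem_diff, Finset.mem_coe, Set.mem_setOf_eq]
        constructor
        · exact fun h => h.1
        · intro h
          exact ⟨h, (mem_EE e).1 (hC h)⟩
      have h1 := hE A hA
      have h2 := hE B hB
      rw [hAB, h2] at h1
      exact_mod_cast h1.symm
    · intro G _
      refine ⟨Finset.univ.filter (fun e => e ∈ G.edgeSet), ?_, ?_⟩
      · rw [Finset.mem_powerset]
        intro e he
        rw [Finset.mem_filter] at he
        rw [mem_EE]
        exact G.not_isDiag_of_mem_edgeSet he.2
      · have h1 : ((Finset.univ.filter (fun e => e ∈ G.edgeSet) : Finset (Sym2 V)) :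
            Set (Sym2 V)) = G.edgeSet := by
          ext e; simp
        rw [h1, SimpleGraph.fromEdgeSet_edgeSet]
  -- graphs without root
  have hno : (((EE V).powerset.filter
      (fun A => comp A = ⊤ ∧ ∀ x : ℝ, 0 ≤ x → 0 < cx A x)).card : ℕ) ≤
      Nat.card {G : SimpleGraph V // ¬ HasRoot G} := by
    rw [Nat.card_eq_fintype_card, Fintype.card_subtype]
    apply Finset.card_le_card_of_injOn (fun A : Finset (Sym2 V) =>
      SimpleGraph.fromEdgeSet (A : Set (Sym2 V)))
    · intro A hA
      simp only [Finset.coe_filter, Set.mem_setOf_eq, Finset.mem_powerset] at hA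
      simp only [Finset.coe_filter, Finset.mem_univ, true_and, Set.mem_setOf_eq]
      rintro ⟨q, hq, hq2⟩
      rw [rel_fromEdgeSet A hA.1] at hq2
      exact rel_ne_zero A hA.1 hA.2.1 hA.2.2 q hq hq2
    · intro A hA B hB hAB
      simp only [Finset.coe_filter, Set.mem_setOf_eq, Finset.mem_powerset] at hA hB
      have hE : ∀ C : Finset (Sym2 V), C ⊆ EE V →
          (SimpleGraph.fromEdgeSet (C : Set (Sym2 V))).edgeSet = (C : Set (Sym2 V)) := by
        intro C hC
        rw [SimpleGraph.edgeSet_fromEdgeSet]
        ext e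
        simp only [Set.mem_diff, Finset.mem_coe, Set.mem_setOf_eq]
        constructor
        · exact fun h => h.1
        · intro h
          exact ⟨h, (mem_EE e).1 (hC h)⟩
      have h1 := hE A hA.1
      have h2 := hE B hB.1
      simp only at hAB
      rw [hAB, h2] at h1
      exact_mod_cast h1.symm
  have hsum : Nat.card {G : SimpleGraph V // HasRoot G} +
      Nat.card {G : SimpleGraph V // ¬ HasRoot G} = Nat.card (SimpleGraph V) := by
    rw [← Nat.card_sum]
    exact Nat.card_congr (Equiv.sumCompl _)
  have hsum' : (Nat.card {G : SimpleGraph V // HasRoot G} : ℝ) +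
      (Nat.card {G : SimpleGraph V // ¬ HasRoot G} : ℝ) = (Nat.card (SimpleGraph V) : ℝ) := by
    exact_mod_cast hsum
  have hno' : (((EE V).powerset.filter
      (fun A => comp A = ⊤ ∧ ∀ x : ℝ, 0 ≤ x → 0 < cx A x)).card : ℝ) ≤
      (Nat.card {G : SimpleGraph V // ¬ HasRoot G} : ℝ) := by
    exact_mod_cast hno
  have hall' : (Nat.card (SimpleGraph V) : ℝ) = 2 ^ (EE V).card := by
    exact_mod_cast hall
  rw [hall'] at hsum' ⊢
  linarith

/-- Disproof: for some `p > 0` and all large `n`, the proportion of labelled graphs on `n` vertices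
with a real reliability root different from `q = 1` is at most `1 - p`; in particular it does not
tend to `1`. -/
theorem result :
    (∃ p : ℝ, 0 < p ∧ ∀ᶠ n : ℕ in atTop, prop n ≤ 1 - p) ∧
    ¬ Tendsto prop atTop (𝓝 1) := by
  have h1 : ∃ p : ℝ, 0 < p ∧ ∀ᶠ n : ℕ in atTop, prop n ≤ 1 - p := by
    obtain ⟨p, hp, n0, h⟩ := main_bound
    refine ⟨p, hp, ?_⟩
    filter_upwards [eventually_ge_atTop n0] with n hn
    have h2 := h (Fin n) (by rw [Fintype.card_fin]; exact hn)
    unfold prop
    have h3 : (0 : ℝ) < (Nat.card (SimpleGraph (Fin n)) : ℝ) := by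
      have : 0 < Nat.card (SimpleGraph (Fin n)) := Nat.card_pos
      exact_mod_cast this
    rw [div_le_iff₀ h3]
    exact h2
  refine ⟨h1, ?_⟩
  intro ht
  obtain ⟨p, hp, h2⟩ := h1
  have h3 := le_of_tendsto ht h2
  linarith

end Pool.Agent.Results.MP_ccdac2_co.NotAlmostAll
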